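import Pool.Agent.K9h28.MdI

/-!
# MP_f8720a_ag: Kato's conjecture for all primes, if there are no isotropic transcendental motives

Let `X` be a projective SNCL scheme of dimension `n` over a log point (with a finite residue field,
say) and let `Y_s` be its strata: the connected components of the intersections of `rk s + 1`
different smooth components, of dimension `n - rk s`. Let `W i` be the `ℓ`-adic cohomology theories,
for all primes `ℓ` different from the characteristic `p`.

**The theorem.** Suppose that the following is true for ONE prime `λ ≠ p` and an ample divisor:
* the conjecture D (homological and numerical equivalence agree) for the products of two strata.
  This is known for infinitely many `λ` if the strata are of abelian type, for example if they are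
  dominated by products of curves and abelian varieties (Clozel);
* the standard conjecture of Hodge type for the strata. It is known if `n ≤ 3` (this is the Hodge
  index theorem for divisors);
* (I) every isotropic motive in the cohomology of the strata is algebraic: for `1 ≤ m < q`, an
  algebraic projector on `⨁ H^{q-m}(Y_s)`, `rk s = m`, whose image is isotropic for the
  intersection form (with the divisor to the power `n - q`) has an image which is generated by
  classes of algebraic cycles;
* the hard Lefschetz theorem for the log cohomology `H^q`. There is no condition if `q = n`, and it
  is known for the special fibres of semistable schemes.
Then Kato's conjecture is true for the log cohomology groups `H^q` and `H^{2n-q}` for `λ`, and for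
ALL primes `ℓ ≠ p` for which the `q`-th log Betti number is the same as for `λ`. The Betti
numbers are the same for all primes if `X` is the special fibre of a strictly semistable scheme. So in
the middle degree `q = n` one obtains the conjecture for all `ℓ` from statements for one `λ`.

The condition (I) is weaker than the positivity which is predicted by the standard conjecture of Hodge
type for the products of the strata. It is a condition on the transcendental part of the cohomology
(the quotient by the algebraic classes) only. It is satisfied
* if the eigenvalues of Frobenius on the transcendental part of `⨁ H^{q-m}(Y_s)`, `rk s = m`, are
  simple and do not occur on the algebraic part, for `1 ≤ m < q` (if the image of a projector is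
  isotropic, then the square of its characteristic polynomial divides the characteristic polynomial
  of Frobenius on the whole space, because the image is paired with a quotient which has the same
  eigenvalues, as the characteristic polynomials are rational and pure);
* for `m = q - 1`, where it is a condition on `H^1` (Weil's positivity theorem);
* for threefolds, `n = q = 3`, the remaining condition is on the transcendental part of `H^2` of the
  double surfaces. It is satisfied if the Hodge type conjecture is known for the products of two
  double surfaces, for example if they are abelian surfaces (Ancona).

The starting theorem `MiddleCohomology` of this problem has a similar condition on the eigenvalues in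
the middle degree and gives the conjecture for a set of primes of positive density (without using the
conjecture D). M. Saito proved that the standard conjectures (with the Hodge type for all the
products) imply the monodromy-weight conjecture.

**Proof.** For `λ`, the algebra of the correspondences between the strata has a nondegenerate trace
form, and so it is von Neumann regular. Using this, the elements `x` of `E_2^{-m,q+m}` with
`N ^ m x = 0` are, up to boundaries, the image of an algebraic projector `e` on `⨁ H^{q-m}(Y_s)`,
`rk s = m`: they are represented by the families which are restrictions from the strata of rank
`m - 1` and whose Gysin images vanish. This image is isotropic, and so it consists of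
linear combinations of algebraic classes by (I). As `e` is algebraic, the image is even generated by
rational algebraic families. For these the positivity of the intersection form on the algebraic
classes and harmonic theory (a Laplace operator on the complex of Rapoport, Zink and Steenbrink of
the spaces of algebraic classes) show that they are boundaries. So `N ^ m` is injective on
`E_2^{-m,q+m}`, and it is surjective by duality. Finally the inverse of `N ^ m` is given by
correspondences, so `N ^ m` is an isomorphism for all `ℓ`.
-/

set_option autoImplicit false

universe u v

namespace Pool.Agent.Results.MP_f8720a_ag.NoIsotropicMotives

open Pool.Agent.H914 Pool.Agent.K9h28.Il

/-- **Kato's conjecture for all primes, if there are no isotropic transcendental motives.** -/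
theorem result {k : Type u} [Field k] {𝒱 : VarClass k} {ops : CycleOps 𝒱} {ι : Type}
    -- the `ℓ`-adic theories and the strata of the SNCL scheme
    (W : ι → WeilCohomology.{u, v} ops) (T : Strata 𝒱) {n : ℕ} (hT : IsSNCL W T n)
    -- the conjecture D for the products of the strata, for one theory
    (l : ι) (hD : ∀ s t, ConjectureD (W l) ((T.Y s).prod (T.Y t)))
    -- hard Lefschetz and the conjecture of Hodge type for the strata, for this theory
    (D : ∀ s, (T.Y s).Cycles) (hP : IsPolarization (W l) T D)
    -- the isotropic motives are algebraic, for this theory
    {q : ℕ} (hI : T.IsotropicAlgebraic (W l) n q D)
    -- the hard Lefschetz theorem for the log cohomology, for this theory (no condition if `q = n`)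
    (hL : (T.cx (W l)).IsSymmetricAt n q)
    -- another theory with the same Betti number
    (i : ι) (hb : (T.cx (W i)).betti n q = (T.cx (W l)).betti n q) :
    -- the filtration by the weights on the log cohomology is the monodromy filtration
    ∀ r : ℤ, r = q ∨ r = 2 * n - q → ∀ {V : Type v} [AddCommGroup V]
      [Module (W i).K V] (F : ℤ → Submodule (W i).K V) (N : Module.End (W i).K V)
      (R : ℤ → V → (T.cx (W i)).V → Prop), IsAbutment (T.cx (W i)) n r F N R →
        IsMonodromyFiltration F N r :=
  fun _ hr _ _ _ _ _ _ A => md_sncl hT hD hP hI hL i hb hr A

end Pool.Agent.Results.MP_f8720a_ag.NoIsotropicMotives
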