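import Pool.Agent.K9h28.IlK

/-!
# MP_f8720a_ag: Kato's conjecture for one prime `λ` and conjecture D for `λ` give it for all primes

Let `X` be a projective SNCL scheme of dimension `n` over a log point with the strata `Y_s` (the
connected components of the intersections of the smooth components), and let `W i` be the `ℓ`-adic
cohomology theories for all `ℓ` different from the characteristic. The weight spectral sequence of
`X` degenerates at `E_2`, and `E_2^{-m,q+m}` is the graded piece of weight `q + m` of the log
cohomology `H^q`; so Kato's conjecture in degree `q` for `ℓ` says that `N^m` is an isomorphism
`E_2^{-m,q+m} → E_2^{m,q-m}` for all `m ≥ 1`.

The theorem: suppose that for ONE prime `λ` the conjecture D (homological equivalence is numerical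
equivalence) is true for the products of two strata. This is a theorem of Clozel for many `λ` if the
strata are of abelian type, for example products of curves and abelian varieties. Then
* for all `ℓ` and all `a`, `b` the dimension of `E_2^{a,b}` is at most the dimension for `λ`; so in
  every degree the log Betti number is largest for `λ`;
* if the log Betti number in degree `q` is the same for `ℓ` and for `λ`, then also the dimensions of
  the graded pieces of the weight filtration on `H^q` are the same, and Kato's conjecture in degree
  `q` for `λ` implies Kato's conjecture in degree `q` for `ℓ`.
The condition on the Betti numbers is satisfied for all `ℓ` and all `q` if `X` is the special fibre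
of a strictly semistable scheme, because the log cohomology is then the cohomology of the geometric
generic fibre.

Proof. The matrices of correspondences between the strata form a system of operators whose traces are
rational and independent of `ℓ`. For `λ` the trace form is nondegenerate, so this ring is von Neumann
regular at `λ`, and idempotents can be lifted to the correspondences; therefore the rank of an
operator in the system is smallest for `λ`. This applies to the differential between any two terms of
the spectral sequence, and gives the inequality. If the Betti numbers are equal, then so are all the
ranks in question, the cycles and the boundaries are cut out by algebraic projectors which are the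
same for `ℓ` and `λ`, and the inverse of `N^m` for `λ` is given by correspondences which give an
inverse for `ℓ` too.
-/

set_option autoImplicit false

universe u v

namespace Pool.Agent.Results.MP_f8720a_ag.OnePrimeToAllPrimes

open Pool.Agent.H914 Pool.Agent.K9h28.Il

/-- **Kato's conjecture for all primes, from one prime for which the conjecture D is true.** -/
theorem result {k : Type u} [Field k] {𝒱 : VarClass k} {ops : CycleOps 𝒱} {ι : Type}
    -- the cohomology theories, and the strata of the SNCL scheme
    (W : ι → WeilCohomology.{u, v} ops) (T : Strata 𝒱) {n : ℕ} (hT : IsSNCL W T n)
    -- the conjecture D for the products of the strata, for one theory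
    (l : ι) (hD : ∀ s t, ConjectureD (W l) ((T.Y s).prod (T.Y t))) (i : ι) :
    -- the weight spectral sequence is largest for this theory
    (∀ a b, (T.cx (W i)).dimE2 a b ≤ (T.cx (W l)).dimE2 a b) ∧
    -- the transfer
    ∀ q, (T.cx (W i)).betti n q = (T.cx (W l)).betti n q →
      (∀ a b, a + b = q → (T.cx (W i)).dimE2 a b = (T.cx (W l)).dimE2 a b) ∧
      ((T.cx (W l)).MonodromyWeight q → (T.cx (W i)).MonodromyWeight q) :=
  sncl_main hT hD i

end Pool.Agent.Results.MP_f8720a_ag.OnePrimeToAllPrimes
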